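import Mathlib

namespace Pool.Agent.H.MP_efec2f_gt

open Filter Topology
open scoped NNReal

/-- rate function (the value at `0` plays no role) -/
def Rate (f : ℕ → ℝ) : Prop :=
  (∀ n, 1 ≤ n → 0 < f n) ∧ (∀ m n, 1 ≤ m → m ≤ n → f m ≤ f n) ∧
  (∀ C : ℝ, ∃ n, 1 ≤ n ∧ C < f n) ∧
  ∀ M : ℕ, 1 ≤ M → ∃ c C : ℝ, 0 < c ∧ 0 < C ∧ ∃ N0 : ℕ, ∀ N, N0 ≤ N →
    c * f N ≤ f (M * N) ∧ f (M * N) ≤ C * f N

/-- same growth type -/
def Same (f g : ℕ → ℝ) : Prop :=
  ∃ c C : ℝ, 0 < c ∧ 0 < C ∧ ∃ N0 : ℕ, ∀ N, N0 ≤ N → c * g N ≤ f N ∧ f N ≤ C * g N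

/-- `f` is realizable in `X` with index set `I` -/
def Realizable (X : Type) [MetricSpace X] (I : Set ℤ) (f : ℕ → ℝ) : Prop :=
  ∃ (p : I → X) (A B : ℝ) (N0 : ℕ), 0 < A ∧ 0 < B ∧ 1 ≤ N0 ∧
    ∀ m n : I, N0 ≤ ((n : ℤ) - m).natAbs →
      A * f ((n : ℤ) - m).natAbs ≤ dist (p n) (p m) ∧
      dist (p n) (p m) ≤ B * f ((n : ℤ) - m).natAbs

/-- the sequence distortion spectrum: the set of growth classes of realizable rate functions -/
def Spec (X : Type) [MetricSpace X] (I : Set ℤ) : Set (Set (ℕ → ℝ)) :=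
  {c | ∃ f, Rate f ∧ Realizable X I f ∧ c = {g | Rate g ∧ Same f g}}

/-- geodesic space -/
def Geodesic (X : Type) [MetricSpace X] : Prop :=
  ∀ x y : X, ∃ γ : ℝ → X, γ 0 = x ∧ γ (dist x y) = y ∧
    ∀ s ∈ Set.Icc 0 (dist x y), ∀ t ∈ Set.Icc 0 (dist x y), dist (γ s) (γ t) = |s - t|

/-- sequences at finite rescaled distance from the basepoints along `ω` -/
def Adm {X : Type} [MetricSpace X] (ω : Ultrafilter ℕ) (x : ℕ → X) (r : ℕ → ℝ≥0) : Type :=
  {p : ℕ → X // ∃ C : ℝ, ∀ᶠ i in (ω : Filter ℕ), dist (p i) (x i) / (r i : ℝ) ≤ C}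

/-- the `ω`-limit of the rescaled distances -/
noncomputable def cdist {X : Type} [MetricSpace X] {ω : Ultrafilter ℕ} {x : ℕ → X}
    {r : ℕ → ℝ≥0} (p q : Adm ω x r) : ℝ :=
  limUnder (ω : Filter ℕ) (fun i => dist (p.1 i) (q.1 i) / (r i : ℝ))

theorem tendsto_cdist {X : Type} [MetricSpace X] {ω : Ultrafilter ℕ} {x : ℕ → X}
    {r : ℕ → ℝ≥0} (p q : Adm ω x r) :
    Tendsto (fun i => dist (p.1 i) (q.1 i) / (r i : ℝ)) (ω : Filter ℕ) (𝓝 (cdist p q)) := by
  obtain ⟨C, hC⟩ := p.2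
  obtain ⟨D, hD⟩ := q.2
  have h : ((ω.map (fun i => dist (p.1 i) (q.1 i) / (r i : ℝ)) : Ultrafilter ℝ) : Filter ℝ) ≤
      𝓟 (Set.Icc 0 (C + D)) := by
    rw [Ultrafilter.coe_map, le_principal_iff, mem_map]
    filter_upwards [hC, hD] with i h1 h2
    refine ⟨by positivity, ?_⟩
    have h3 : dist (p.1 i) (q.1 i) ≤ dist (p.1 i) (x i) + dist (q.1 i) (x i) :=
      dist_triangle_right _ _ _
    calc dist (p.1 i) (q.1 i) / (r i : ℝ)
        ≤ (dist (p.1 i) (x i) + dist (q.1 i) (x i)) / (r i : ℝ) :=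
          div_le_div_of_nonneg_right h3 (r i).2
      _ = dist (p.1 i) (x i) / (r i : ℝ) + dist (q.1 i) (x i) / (r i : ℝ) := add_div _ _ _
      _ ≤ C + D := add_le_add h1 h2
  obtain ⟨a, -, ha⟩ := isCompact_Icc.ultrafilter_le_nhds _ h
  exact tendsto_nhds_limUnder ⟨a, ha⟩

noncomputable instance admMetric {X : Type} [MetricSpace X] (ω : Ultrafilter ℕ) (x : ℕ → X)
    (r : ℕ → ℝ≥0) : PseudoMetricSpace (Adm ω x r) where
  dist := cdist
  dist_self p := by
    have h := tendsto_cdist p p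
    simp only [dist_self, zero_div] at h
    exact tendsto_nhds_unique h tendsto_const_nhds
  dist_comm p q := by
    have h := tendsto_cdist p q
    simp only [dist_comm (p.1 _) (q.1 _)] at h
    exact tendsto_nhds_unique h (tendsto_cdist q p)
  dist_triangle p q s := by
    refine le_of_tendsto_of_tendsto' (tendsto_cdist p s)
      ((tendsto_cdist p q).add (tendsto_cdist q s)) fun i => ?_
    rw [← add_div]
    exact div_le_div_of_nonneg_right (dist_triangle _ _ _) (r i).2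

/-- the asymptotic cone: admissible sequences modulo distance zero -/
abbrev Cone {X : Type} [MetricSpace X] (ω : Ultrafilter ℕ) (x : ℕ → X) (r : ℕ → ℝ≥0) : Type :=
  SeparationQuotient (Adm ω x r)

theorem tendsto_dist {X : Type} [MetricSpace X] {ω : Ultrafilter ℕ} {x : ℕ → X}
    {r : ℕ → ℝ≥0} (p q : Adm ω x r) :
    Tendsto (fun i => dist (p.1 i) (q.1 i) / (r i : ℝ)) (ω : Filter ℕ) (𝓝 (dist p q)) :=
  tendsto_cdist p q

/-- Gromov product -/
noncomputable def gp {T : Type} [PseudoMetricSpace T] (w x y : T) : ℝ :=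
  (dist x w + dist y w - dist x y) / 2

def Hyp (T : Type) [PseudoMetricSpace T] (δ : ℝ) : Prop :=
  ∀ w x y z : T, min (gp w x y) (gp w y z) - δ ≤ gp w x z

structure UT (T : Type) [PseudoMetricSpace T] : Prop where
  ne : Nonempty T
  complete : CompleteSpace T
  hyp : Hyp T 0
  btw : ∀ (x y : T) (t : ℝ), 0 ≤ t → t ≤ dist x y → ∃ m, dist m x = t ∧ dist m y = dist x y - t
  branch : ∀ (p : T) (l : ℝ), 0 < l → ∃ g : Set.Icc (0 : ℝ) 1 → T, (∀ a, dist (g a) p = l) ∧
    ∀ a b, a ≠ b → dist (g a) (g b) = 2 * l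
  card : Cardinal.mk T ≤ Cardinal.continuum

theorem gp_comm {T : Type} [PseudoMetricSpace T] (w x y : T) : gp w x y = gp w y x := by
  unfold gp; rw [dist_comm x y]; ring

theorem gp_nonneg {T : Type} [PseudoMetricSpace T] (w x y : T) : 0 ≤ gp w x y := by
  unfold gp; have := dist_triangle_right x y w; linarith

theorem gp_le {T : Type} [PseudoMetricSpace T] (w x y : T) : gp w x y ≤ dist x w := by
  unfold gp; have := dist_triangle y x w; rw [dist_comm y x] at this; linarith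

theorem hyp0 {T : Type} [PseudoMetricSpace T] (h : Hyp T 0) (w x y z : T) {t : ℝ}
    (h1 : t ≤ gp w x y) (h2 : t ≤ gp w y z) : t ≤ gp w x z := by
  have := h w x y z
  have := le_min h1 h2
  linarith

theorem hyp0' {T : Type} [PseudoMetricSpace T] (h : Hyp T 0) (w x y z : T) {t : ℝ}
    (h1 : t < gp w x y) (h2 : t < gp w y z) : t < gp w x z := by
  have := h w x y z
  have := lt_min h1 h2
  linarith

theorem extend {T T' : Type} [PseudoMetricSpace T] [PseudoMetricSpace T'] (h : Hyp T 0)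
    (h' : UT T') (R : Set (T × T')) (hR : Cardinal.mk R < Cardinal.continuum)
    (hiso : ∀ a ∈ R, ∀ b ∈ R, dist a.1 b.1 = dist a.2 b.2) (x : T) :
    ∃ x' : T', ∀ a ∈ R, dist x a.1 = dist x' a.2 := by
  classical
  rcases R.eq_empty_or_nonempty with rfl | ⟨o, ho⟩
  · obtain ⟨y⟩ := h'.ne
    exact ⟨y, fun a ha => ha.elim⟩
  haveI := h'.complete
  set t : R → ℝ := fun s => gp o.1 x s.1.1 with ht
  have hgp : ∀ s u : R, gp o.1 s.1.1 u.1.1 = gp o.2 s.1.2 u.1.2 := by
    intro s u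
    unfold gp
    rw [hiso _ s.2 _ ho, hiso _ u.2 _ ho, hiso _ s.2 _ u.2]
  have hm : ∀ s : R, ∃ m : T', dist m o.2 = t s ∧ dist m s.1.2 = dist o.2 s.1.2 - t s := by
    intro s
    refine h'.btw o.2 s.1.2 (t s) (gp_nonneg _ _ _) ?_
    rw [← hiso _ ho _ s.2, dist_comm]
    simp only [ht]
    rw [gp_comm]
    exact gp_le _ _ _
  choose m hm1 hm2 using hm
  have hms : ∀ s : R, gp o.2 (m s) s.1.2 = t s := by
    intro s
    unfold gp
    rw [hm1, hm2, dist_comm s.1.2 o.2]; ring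
  have hA : ∀ s u : R, dist (m s) (m u) ≤ |t s - t u| := by
    intro s u
    have h1 : min (t s) (t u) ≤ gp o.2 s.1.2 u.1.2 := by
      rw [← hgp]
      refine hyp0 h _ _ x _ ?_ (min_le_right _ _)
      rw [gp_comm]; exact min_le_left _ _
    have h2 : min (t s) (t u) ≤ gp o.2 (m s) u.1.2 :=
      hyp0 h'.hyp _ _ s.1.2 _ (by rw [hms]; exact min_le_left _ _) h1
    have h3 : min (t s) (t u) ≤ gp o.2 (m s) (m u) :=
      hyp0 h'.hyp _ _ u.1.2 _ h2 (by rw [gp_comm, hms]; exact min_le_right _ _)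
    unfold gp at h3
    rw [hm1, hm1] at h3
    rcases le_total (t s) (t u) with h4 | h4
    · rw [min_eq_left h4] at h3; rw [abs_sub_comm, abs_of_nonneg (by linarith)]; linarith
    · rw [min_eq_right h4] at h3; rw [abs_of_nonneg (by linarith)]; linarith
  haveI : Nonempty R := ⟨⟨o, ho⟩⟩
  have hbdd : BddAbove (Set.range t) := ⟨dist x o.1, by rintro _ ⟨s, rfl⟩; exact gp_le _ _ _⟩
  set τ := sSup (Set.range t) with hτ
  have hle : ∀ s, t s ≤ τ := fun s => le_csSup hbdd ⟨s, rfl⟩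
  have hτx : τ ≤ dist x o.1 := csSup_le (Set.range_nonempty t)
    (by rintro _ ⟨s, rfl⟩; exact gp_le _ _ _)
  obtain ⟨v, -, hv, hvm⟩ := exists_seq_tendsto_sSup (Set.range_nonempty t) hbdd
  choose s hs using hvm
  have hts : Tendsto (fun n => t (s n)) atTop (𝓝 τ) := by
    simpa only [hs] using hv
  have hcau : CauchySeq (fun n => m (s n)) := by
    have hc := hts.cauchySeq
    rw [Metric.cauchySeq_iff] at hc ⊢
    intro ε hε
    obtain ⟨N, hN⟩ := hc ε hε
    exact ⟨N, fun a ha b hb => (hA _ _).trans_lt (by simpa [Real.dist_eq] using hN a ha b hb)⟩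
  obtain ⟨p, hp⟩ := cauchySeq_tendsto_of_complete hcau
  have hpo : dist p o.2 = τ := by
    have h1 : Tendsto (fun n => dist (m (s n)) o.2) atTop (𝓝 (dist p o.2)) :=
      hp.dist tendsto_const_nhds
    simp only [hm1] at h1
    exact tendsto_nhds_unique h1 hts
  have hpm : ∀ u : R, dist p (m u) ≤ τ - t u := by
    intro u
    have h1 : Tendsto (fun n => dist (m (s n)) (m u)) atTop (𝓝 (dist p (m u))) :=
      hp.dist tendsto_const_nhds
    have h2 : Tendsto (fun n => |t (s n) - t u|) atTop (𝓝 |τ - t u|) :=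
      (hts.sub tendsto_const_nhds).abs
    have h3 := le_of_tendsto_of_tendsto' h1 h2 fun n => hA _ _
    rwa [abs_of_nonneg (by linarith [hle u])] at h3
  have hB1 : ∀ u : R, t u ≤ gp o.2 p u.1.2 := by
    intro u
    refine hyp0 h'.hyp _ _ (m u) _ ?_ (hms u).ge
    unfold gp
    rw [hpo, hm1]
    linarith [hpm u]
  have hB : ∀ u : R, gp o.2 p u.1.2 = t u := by
    intro u
    refine le_antisymm ?_ (hB1 u)
    by_contra hc
    push Not at hc
    have h1 : t u < τ := hc.trans_le (by rw [← hpo]; exact gp_le _ _ _)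
    obtain ⟨_, ⟨w, rfl⟩, hw⟩ := exists_lt_of_lt_csSup (Set.range_nonempty t) h1
    have h2 : t u < gp o.2 w.1.2 u.1.2 :=
      hyp0' h'.hyp _ _ p _ (by rw [gp_comm]; exact hw.trans_le (hB1 w)) hc
    rw [← hgp] at h2
    have h3 : t u < gp o.1 x u.1.1 := hyp0' h _ _ w.1.1 _ hw h2
    exact lt_irrefl _ h3
  have hpd : ∀ u : R, dist p u.1.2 = dist x u.1.1 - (dist x o.1 - τ) := by
    intro u
    have h1 := hB u
    simp only [ht] at h1
    unfold gp at h1
    rw [hpo, ← hiso _ u.2 _ ho] at h1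
    linarith
  rcases hτx.eq_or_lt with h0 | h0
  · refine ⟨p, fun a ha => ?_⟩
    rw [hpd ⟨a, ha⟩, h0]; simp
  obtain ⟨g, hg1, hg2⟩ := h'.branch p (dist x o.1 - τ) (by linarith)
  have hex : ∃ a, ∀ u : R, gp p (g a) u.1.2 ≤ 0 := by
    by_contra hc
    push Not at hc
    choose F hF using hc
    have hinj : Function.Injective F := by
      intro a b hab
      by_contra hne
      have h1 : 0 < gp p (g a) (g b) :=
        hyp0' h'.hyp _ _ (F a).1.2 _ (hF a) (by rw [gp_comm, hab]; exact hF b)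
      unfold gp at h1
      rw [hg1, hg1, hg2 a b hne] at h1
      linarith
    have h2 := Cardinal.mk_le_of_injective hinj
    rw [Cardinal.mk_Icc_real zero_lt_one] at h2
    exact absurd hR (not_lt.2 h2)
  obtain ⟨a, ha⟩ := hex
  refine ⟨g a, fun b hb => ?_⟩
  have h1 := le_antisymm (ha ⟨b, hb⟩) (gp_nonneg _ _ _)
  unfold gp at h1
  rw [hg1, dist_comm _ p, hpd ⟨b, hb⟩] at h1
  simp only at h1
  linarith

theorem rec_lemma {W α : Type} [Nonempty α] (hW : Cardinal.mk W ≤ Cardinal.continuum)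
    (compat : α → α → Prop) (hrefl : ∀ a, compat a a) (hsymm : ∀ a b, compat a b → compat b a)
    (Sol : W → α → Prop)
    (step : ∀ S : Set α, Cardinal.mk S < Cardinal.continuum → (∀ a ∈ S, ∀ b ∈ S, compat a b) →
      ∀ w, ∃ a, Sol w a ∧ ∀ b ∈ S, compat a b) :
    ∃ F : W → α, (∀ w, Sol w (F w)) ∧ ∀ v w, compat (F v) (F w) := by
  classical
  obtain ⟨r, wo, hr⟩ := Cardinal.ord_eq W
  let G : ∀ w : W, (∀ v, r v w → α) → α := fun w f =>
    if h : ∃ a, Sol w a ∧ ∀ v (hv : r v w), compat a (f v hv) then h.choose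
    else Classical.arbitrary α
  let F : W → α := wo.wf.fix G
  have hF : ∀ w, F w = G w (fun v _ => F v) := fun w => wo.wf.fix_eq G w
  have key : ∀ w, Sol w (F w) ∧ ∀ v, r v w → compat (F w) (F v) := by
    intro w
    induction w using wo.wf.induction with
    | _ w ih =>
      have hS : Cardinal.mk (F '' {v | r v w}) < Cardinal.continuum := by
        refine Cardinal.mk_image_le.trans_lt (lt_of_lt_of_le ?_ hW)
        exact Cardinal.card_typein_lt (r := r) w hr
      have hc : ∀ a ∈ F '' {v | r v w}, ∀ b ∈ F '' {v | r v w}, compat a b := by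
        rintro _ ⟨u, hu, rfl⟩ _ ⟨v, hv, rfl⟩
        rcases trichotomous_of r u v with h | h | h
        · exact hsymm _ _ ((ih v hv).2 u h)
        · subst h; exact hrefl _
        · exact (ih u hu).2 v h
      obtain ⟨a, ha1, ha2⟩ := step _ hS hc w
      have hex : ∃ a, Sol w a ∧ ∀ v (_ : r v w), compat a (F v) :=
        ⟨a, ha1, fun v hv => ha2 _ ⟨v, hv, rfl⟩⟩
      have h1 : F w = hex.choose := by
        rw [hF]; exact dif_pos hex
      rw [h1]
      exact hex.choose_spec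
  refine ⟨F, fun w => (key w).1, fun v w => ?_⟩
  rcases trichotomous_of r v w with h | h | h
  · exact hsymm _ _ ((key w).2 v h)
  · subst h; exact hrefl _
  · exact (key v).2 w h

theorem unique {T T' : Type} [MetricSpace T] [MetricSpace T'] (h : UT T) (h' : UT T') :
    Nonempty (T ≃ᵢ T') := by
  haveI := h.ne
  haveI := h'.ne
  have hW : Cardinal.mk (T ⊕ T') ≤ Cardinal.continuum := by
    simp only [Cardinal.mk_sum, Cardinal.lift_id]
    calc Cardinal.mk T + Cardinal.mk T' ≤ Cardinal.continuum + Cardinal.continuum :=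
          add_le_add h.card h'.card
      _ = Cardinal.continuum := Cardinal.continuum_add_self
  obtain ⟨F, hF1, hF2⟩ := rec_lemma (α := T × T') hW (fun a b => dist a.1 b.1 = dist a.2 b.2)
    (fun a => by simp) (fun a b hab => by rw [dist_comm, hab, dist_comm])
    (fun w a => match w with
      | Sum.inl x => a.1 = x
      | Sum.inr y => a.2 = y) (by
      intro S hS hc w
      rcases w with x | y
      · obtain ⟨x', hx'⟩ := extend h.hyp h' S hS hc x
        exact ⟨(x, x'), rfl, hx'⟩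
      · obtain ⟨y', hy'⟩ := extend h'.hyp h (Prod.swap '' S) (Cardinal.mk_image_le.trans_lt hS)
          (by rintro _ ⟨a, ha, rfl⟩ _ ⟨b, hb, rfl⟩; exact (hc a ha b hb).symm) y
        exact ⟨(y', y), rfl, fun b hb => (hy' _ ⟨b, hb, rfl⟩).symm⟩)
  have h1 : ∀ x, (F (Sum.inl x)).1 = x := fun x => hF1 (Sum.inl x)
  have h2 : ∀ y, (F (Sum.inr y)).2 = y := fun y => hF1 (Sum.inr y)
  let f : T → T' := fun x => (F (Sum.inl x)).2
  have hf : Isometry f := Isometry.of_dist_eq fun a b => by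
    have := hF2 (Sum.inl a) (Sum.inl b)
    simp only [h1] at this
    exact this.symm
  have hs : Function.Surjective f := fun y => by
    refine ⟨(F (Sum.inr y)).1, ?_⟩
    have := hF2 (Sum.inl (F (Sum.inr y)).1) (Sum.inr y)
    simp only [h1, h2, dist_self] at this
    exact dist_eq_zero.1 this.symm
  exact ⟨⟨Equiv.ofBijective f ⟨hf.injective, hs⟩, hf⟩⟩

theorem UT.quot {T : Type} [PseudoMetricSpace T] (h : UT T) : UT (SeparationQuotient T) where
  ne := ⟨SeparationQuotient.mk h.ne.some⟩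
  complete := by haveI := h.complete; infer_instance
  hyp := by
    intro w x y z
    obtain ⟨w, rfl⟩ := SeparationQuotient.surjective_mk w
    obtain ⟨x, rfl⟩ := SeparationQuotient.surjective_mk x
    obtain ⟨y, rfl⟩ := SeparationQuotient.surjective_mk y
    obtain ⟨z, rfl⟩ := SeparationQuotient.surjective_mk z
    exact h.hyp w x y z
  btw := by
    intro x y t h1 h2
    obtain ⟨x, rfl⟩ := SeparationQuotient.surjective_mk x
    obtain ⟨y, rfl⟩ := SeparationQuotient.surjective_mk y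
    obtain ⟨m, hm⟩ := h.btw x y t h1 h2
    exact ⟨SeparationQuotient.mk m, hm⟩
  branch := by
    intro p l hl
    obtain ⟨p, rfl⟩ := SeparationQuotient.surjective_mk p
    obtain ⟨g, hg⟩ := h.branch p l hl
    exact ⟨fun a => SeparationQuotient.mk (g a), hg⟩
  card := (Cardinal.mk_le_of_surjective SeparationQuotient.surjective_mk).trans h.card

end Pool.Agent.H.MP_efec2f_gt
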