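import Pool.Agent.H.MP_efec2f_gt.A

namespace Pool.Agent.H.MP_efec2f_gt

open Filter Topology
open scoped NNReal

structure Nice (X : Type) [MetricSpace X] : Prop where
  geo : Geodesic X
  hyp : ∃ δ, Hyp X δ
  branch : ∃ C : ℝ, 0 ≤ C ∧ ∀ (z : X) (L : ℝ), 0 ≤ L → ∃ g : ℕ → X,
    (∀ k, dist (g k) z ≤ L + C) ∧
    ∀ k k' : ℕ, k ≠ k' → 2 * L - C * (1 + k + k') ≤ dist (g k) (g k')
  card : Cardinal.mk X ≤ Cardinal.continuum

variable {X : Type} [MetricSpace X] {ω : Ultrafilter ℕ} {x : ℕ → X} {r : ℕ → ℝ≥0}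

theorem adm_of (p : Adm ω x r) (q : ℕ → X) (C : ℝ)
    (h : ∀ᶠ i in (ω : Filter ℕ), dist (q i) (p.1 i) / (r i : ℝ) ≤ C) :
    ∃ C : ℝ, ∀ᶠ i in (ω : Filter ℕ), dist (q i) (x i) / (r i : ℝ) ≤ C := by
  obtain ⟨D, hD⟩ := p.2
  refine ⟨C + D, ?_⟩
  filter_upwards [h, hD] with i h1 h2
  calc dist (q i) (x i) / (r i : ℝ) ≤ (dist (q i) (p.1 i) + dist (p.1 i) (x i)) / (r i : ℝ) :=
        div_le_div_of_nonneg_right (dist_triangle _ _ _) (r i).2
    _ = _ := add_div _ _ _
    _ ≤ C + D := add_le_add h1 h2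

theorem tendsto_gp (w p q : Adm ω x r) :
    Tendsto (fun i => gp (w.1 i) (p.1 i) (q.1 i) / (r i : ℝ)) (ω : Filter ℕ) (𝓝 (gp w p q)) := by
  have h := (((tendsto_dist p w).add (tendsto_dist q w)).sub (tendsto_dist p q)).div_const 2
  refine h.congr fun i => ?_
  unfold gp
  ring

theorem adm_complete (hω : (ω : Filter ℕ) ≤ atTop) : CompleteSpace (Adm ω x r) := by
  classical
  refine Metric.complete_of_convergent_controlled_sequences (fun n => (1 / 2 : ℝ) ^ n)
    (fun n => by positivity) fun u hu => ?_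
  let A : ℕ → ℕ → Prop := fun i N => ∀ n ≤ N,
    dist ((u N).1 i) ((u n).1 i) / (r i : ℝ) < (1 / 2 : ℝ) ^ n
  let A' : ℕ → ℕ → Prop := fun i N => ∀ M ≤ N, A i M
  have hA : ∀ N, ∀ᶠ i in (ω : Filter ℕ), A i N := by
    intro N
    have : ∀ n ∈ Finset.range (N + 1), ∀ᶠ i in (ω : Filter ℕ),
        dist ((u N).1 i) ((u n).1 i) / (r i : ℝ) < (1 / 2 : ℝ) ^ n := by
      intro n hn
      have h1 := hu n N n (by simpa [Nat.lt_succ_iff] using hn) le_rfl
      exact (tendsto_dist (u N) (u n)).eventually (gt_mem_nhds h1)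
    filter_upwards [(eventually_all_finset _).2 this] with i hi n hn
    exact hi n (by simpa [Nat.lt_succ_iff] using hn)
  let q : ℕ → X := fun i => (u (Nat.findGreatest (A i) i)).1 i
  have hq : ∀ N, ∀ᶠ i in (ω : Filter ℕ), dist (q i) ((u N).1 i) / (r i : ℝ) ≤ (1 / 2 : ℝ) ^ N := by
    intro N
    filter_upwards [hA N, hω (eventually_ge_atTop N)] with i h1 h2
    have h3 : N ≤ Nat.findGreatest (A i) i := Nat.le_findGreatest h2 h1
    have h4 : A i (Nat.findGreatest (A i) i) := Nat.findGreatest_spec h2 h1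
    exact (h4 N h3).le
  let Q : Adm ω x r := ⟨q, adm_of (u 0) q _ (hq 0)⟩
  refine ⟨Q, tendsto_iff_dist_tendsto_zero.2 ?_⟩
  refine squeeze_zero (fun _ => dist_nonneg) (fun N => ?_)
    (tendsto_pow_atTop_nhds_zero_of_lt_one (r := (1 / 2 : ℝ)) (by norm_num) (by norm_num))
  rw [dist_comm]
  exact le_of_tendsto (tendsto_dist Q (u N)) (hq N)

theorem adm_UT (hX : Nice X) (hω : (ω : Filter ℕ) ≤ atTop) (hr : Tendsto r atTop atTop) :
    UT (Adm ω x r) := by
  have hr1 : Tendsto (fun i => (r i : ℝ)) (ω : Filter ℕ) atTop :=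
    (NNReal.tendsto_coe_atTop.2 hr).mono_left hω
  have hr0 : ∀ c : ℝ, Tendsto (fun i => c / (r i : ℝ)) (ω : Filter ℕ) (𝓝 0) := fun c =>
    hr1.const_div_atTop c
  have hpos : ∀ᶠ i in (ω : Filter ℕ), 0 < (r i : ℝ) := hr1.eventually_gt_atTop 0
  refine ⟨⟨⟨x, 0, by simp⟩⟩, adm_complete hω, ?_, ?_, ?_, ?_⟩
  · obtain ⟨δ, hδ⟩ := hX.hyp
    intro w p q s
    have key : ∀ a b c ρ : ℝ, 0 ≤ ρ → min a b - δ ≤ c → min (a / ρ) (b / ρ) - δ / ρ ≤ c / ρ := by
      intro a b c ρ h0 h1
      rw [min_div_div_right h0, ← sub_div]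
      exact div_le_div_of_nonneg_right h1 h0
    have := le_of_tendsto_of_tendsto' (((tendsto_gp w p q).min (tendsto_gp w q s)).sub (hr0 δ))
      (tendsto_gp w p s) fun i => key _ _ _ _ (r i).2 (hδ _ _ _ _)
    exact this
  · intro p q t h0 h1
    rcases (dist_nonneg (x := p) (y := q)).eq_or_lt with hd | hd
    · have ht : t = 0 := by linarith
      exact ⟨p, by simp [ht], by simp [ht]⟩
    have hθ0 : 0 ≤ t / dist p q := by positivity
    have hθ1 : t / dist p q ≤ 1 := (div_le_one hd).2 h1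
    set θ := t / dist p q with hθ
    have hm : ∀ i, ∃ m : X, dist m (p.1 i) = θ * dist (p.1 i) (q.1 i) ∧
        dist m (q.1 i) = (1 - θ) * dist (p.1 i) (q.1 i) := by
      intro i
      obtain ⟨γ, g0, g1, g2⟩ := hX.geo (p.1 i) (q.1 i)
      have hd0 : 0 ≤ dist (p.1 i) (q.1 i) := dist_nonneg
      have hm : θ * dist (p.1 i) (q.1 i) ∈ Set.Icc 0 (dist (p.1 i) (q.1 i)) :=
        ⟨by positivity, by nlinarith⟩
      refine ⟨γ (θ * dist (p.1 i) (q.1 i)), ?_, ?_⟩
      · have := g2 _ hm 0 ⟨le_rfl, hd0⟩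
        rw [g0, sub_zero, abs_of_nonneg hm.1] at this
        exact this
      · have := g2 _ hm _ ⟨hd0, le_rfl⟩
        rw [g1, abs_sub_comm, abs_of_nonneg (by linarith [hm.2])] at this
        rw [this]; ring
    choose m hm1 hm2 using hm
    have h2 : Tendsto (fun i => dist (m i) (p.1 i) / (r i : ℝ)) (ω : Filter ℕ)
        (𝓝 (θ * dist p q)) := by
      refine ((tendsto_dist p q).const_mul θ).congr fun i => ?_
      rw [hm1]; ring
    have h3 : Tendsto (fun i => dist (m i) (q.1 i) / (r i : ℝ)) (ω : Filter ℕ)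
        (𝓝 ((1 - θ) * dist p q)) := by
      refine ((tendsto_dist p q).const_mul (1 - θ)).congr fun i => ?_
      rw [hm2]; ring
    let M : Adm ω x r := ⟨m, adm_of p m (θ * dist p q + 1)
      ((h2.eventually (gt_mem_nhds (lt_add_one _))).mono fun i hi => hi.le)⟩
    have h4 : θ * dist p q = t := by rw [hθ]; field_simp
    refine ⟨M, ?_, ?_⟩
    · rw [tendsto_nhds_unique (tendsto_dist M p) h2, h4]
    · rw [tendsto_nhds_unique (tendsto_dist M q) h3, sub_mul, h4, one_mul]
  · intro p l hl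
    obtain ⟨C, hC, hb⟩ := hX.branch
    choose g hg1 hg2 using fun i => hb (p.1 i) (l * r i) (by positivity)
    let k : Set.Icc (0 : ℝ) 1 → ℕ → ℕ := fun a i => ⌊a.1 * √(r i : ℝ)⌋₊
    have hk : ∀ a i, (k a i : ℝ) ≤ √(r i : ℝ) := by
      intro a i
      have h0 : 0 ≤ √(r i : ℝ) := Real.sqrt_nonneg _
      refine (Nat.floor_le (mul_nonneg a.2.1 h0)).trans ?_
      nlinarith [a.2.2]
    have hup : Tendsto (fun i => l + C / (r i : ℝ)) (ω : Filter ℕ) (𝓝 (l + 0)) :=
      tendsto_const_nhds.add (hr0 C)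
    have hb1 : ∀ a, ∀ᶠ i in (ω : Filter ℕ),
        dist (g i (k a i)) (p.1 i) / (r i : ℝ) ≤ l + C / (r i : ℝ) := by
      intro a
      filter_upwards [hpos] with i hi
      rw [div_le_iff₀ hi, add_mul, div_mul_cancel₀ _ hi.ne']
      exact hg1 i _
    let G : Set.Icc (0 : ℝ) 1 → Adm ω x r := fun a => ⟨fun i => g i (k a i),
      adm_of p _ (l + 0 + 1) (by
        filter_upwards [hb1 a, hup.eventually (gt_mem_nhds (lt_add_one _))] with i h1 h2
        exact h1.trans h2.le)⟩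
    have hG1 : ∀ a, dist (G a) p ≤ l := fun a => by
      have := le_of_tendsto_of_tendsto (tendsto_dist (G a) p) hup (hb1 a)
      simpa using this
    have hsq : Tendsto (fun i => √(r i : ℝ)) (ω : Filter ℕ) atTop :=
      Real.tendsto_sqrt_atTop.comp hr1
    have hne : ∀ a b : Set.Icc (0 : ℝ) 1, a.1 < b.1 →
        ∀ᶠ i in (ω : Filter ℕ), k a i ≠ k b i := by
      intro a b hab
      filter_upwards [(hsq.const_mul_atTop (sub_pos.2 hab)).eventually_ge_atTop 1] with i hi
      have h0 : 0 ≤ a.1 * √(r i : ℝ) := mul_nonneg a.2.1 (Real.sqrt_nonneg _)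
      have h1 : ⌊a.1 * √(r i : ℝ) + 1⌋₊ ≤ k b i := Nat.floor_le_floor (by linarith)
      rw [Nat.floor_add_one h0] at h1
      exact Nat.ne_of_lt h1
    have hG2 : ∀ a b, a ≠ b → 2 * l ≤ dist (G a) (G b) := by
      intro a b hab
      have h1 : ∀ᶠ i in (ω : Filter ℕ), k a i ≠ k b i := by
        rcases lt_or_gt_of_ne (fun h => hab (Subtype.ext h) : a.1 ≠ b.1) with h | h
        · exact hne a b h
        · exact (hne b a h).mono fun i hi => hi.symm
      have h2 : Tendsto (fun i => 2 * l - C / (r i : ℝ) - 2 * C / √(r i : ℝ)) (ω : Filter ℕ)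
          (𝓝 (2 * l - 0 - 0)) :=
        (tendsto_const_nhds.sub (hr0 C)).sub (hsq.const_div_atTop _)
      have h3 := le_of_tendsto_of_tendsto h2 (tendsto_dist (G a) (G b)) (by
        filter_upwards [hpos, h1] with i hi h4
        have h5 := hg2 i _ _ h4
        have hs : 0 < √(r i : ℝ) := Real.sqrt_pos.2 hi
        have hss : √(r i : ℝ) * √(r i : ℝ) = r i := Real.mul_self_sqrt hi.le
        have h6 : 2 * C / √(r i : ℝ) * (r i : ℝ) = 2 * C * √(r i : ℝ) := by
          rw [div_mul_eq_mul_div, div_eq_iff hs.ne', mul_assoc (2 * C), hss]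
        show _ ≤ dist (g i (k a i)) (g i (k b i)) / (r i : ℝ)
        rw [le_div_iff₀ hi, sub_mul, sub_mul, div_mul_cancel₀ _ hi.ne', h6]
        nlinarith [hk a i, hk b i])
      simpa using h3
    refine ⟨G, fun a => le_antisymm (hG1 a) ?_, fun a b hab => le_antisymm ?_ (hG2 a b hab)⟩
    · obtain ⟨b, hb⟩ := exists_ne a
      have h1 := hG2 b a hb
      have h2 := dist_triangle_right (G b) (G a) p
      linarith [hG1 b]
    · have h2 := dist_triangle_right (G a) (G b) p
      linarith [hG1 a, hG1 b]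
  · refine (Cardinal.mk_subtype_le _).trans ?_
    rw [← Cardinal.power_def, Cardinal.mk_nat]
    calc Cardinal.mk X ^ Cardinal.aleph0 ≤ Cardinal.continuum ^ Cardinal.aleph0 :=
          Cardinal.power_le_power_right hX.card
      _ = Cardinal.continuum := Cardinal.continuum_power_aleph0

theorem cones_iso {Y : Type} [MetricSpace Y] (hX : Nice X) (hY : Nice Y) (y : ℕ → Y)
    (hω : ∀ n, ω ≠ pure n) (hr : Tendsto r atTop atTop) :
    Nonempty (Cone ω x r ≃ᵢ Cone ω y r) := by
  have h1 : (ω : Filter ℕ) ≤ atTop := by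
    rw [← Nat.cofinite_eq_atTop]
    rcases ω.le_cofinite_or_eq_pure with h | ⟨a, ha⟩
    · exact h
    · exact absurd ha (hω a)
  exact unique (adm_UT hX h1 hr).quot (adm_UT hY h1 hr).quot

/-- in a `0`-hyperbolic space proper bounded-step paths have bounded Gromov products -/
theorem walk {T : Type} [PseudoMetricSpace T] (h : Hyp T 0) (w z : T) (q : ℕ → T) (M t : ℝ)
    (ht : 0 < t) (hq : ∀ i, dist (q i) (q (i + 1)) ≤ M) (h0 : q 0 = w) (n : ℕ)
    (hn : t ≤ gp w (q n) z) : ∃ l ≤ n, t ≤ gp w (q l) z ∧ dist (q l) w < t + M := by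
  classical
  have hex : ∃ l, t ≤ gp w (q l) z := ⟨n, hn⟩
  have h1 := Nat.find_spec hex
  have h2 : Nat.find hex ≤ n := Nat.find_min' hex hn
  refine ⟨_, h2, h1, ?_⟩
  obtain h3 | ⟨l, h3⟩ : Nat.find hex = 0 ∨ ∃ l, Nat.find hex = l + 1 := by
    rcases Nat.find hex with _ | l
    · exact Or.inl rfl
    · exact Or.inr ⟨l, rfl⟩
  · rw [h3, h0] at h1
    have := gp_le w w z
    rw [dist_self] at this
    linarith
  · have h4 : ¬ t ≤ gp w (q l) z := Nat.find_min hex (by omega)
    rw [h3] at h1 ⊢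
    have h5 : gp w (q l) (q (l + 1)) < t := by
      by_contra hc
      exact h4 (hyp0 h _ _ _ _ (not_lt.1 hc) h1)
    unfold gp at h5
    have h6 := dist_triangle (q (l + 1)) (q l) w
    rw [dist_comm (q (l + 1)) (q l)] at h6
    linarith [hq l]

theorem quasigeod {T : Type} [PseudoMetricSpace T] (h : Hyp T 0) (q : ℕ → T) (M : ℝ)
    (hq : ∀ i, dist (q i) (q (i + 1)) ≤ M)
    (hprop : ∀ R : ℝ, ∃ L : ℕ, ∀ i j : ℕ, L ≤ j → R ≤ dist (q i) (q (i + j))) :
    ∃ D : ℕ, 1 ≤ D ∧ ∀ n : ℕ, (n : ℝ) ≤ dist (q 0) (q (n * D)) := by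
  have hM : 0 ≤ M := dist_nonneg.trans (hq 0)
  have hstep : ∀ i j : ℕ, dist (q i) (q (i + j)) ≤ j * M := by
    intro i j
    induction j with
    | zero => simp
    | succ j ih =>
      have := dist_triangle (q i) (q (i + j)) (q (i + j + 1))
      have h2 := hq (i + j)
      push_cast
      rw [← add_assoc]
      linarith
  obtain ⟨L, hL⟩ := hprop (2 * M)
  have hgp : ∀ j k : ℕ, gp (q j) (q 0) (q (j + k)) ≤ L * M := by
    intro j k
    by_contra hc
    push Not at hc
    set t := gp (q j) (q 0) (q (j + k)) with ht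
    have ht0 : 0 < t := lt_of_le_of_lt (by positivity) hc
    obtain ⟨a, ha0, ha1, ha2⟩ := walk h (q j) (q 0) (fun i => q (j - i)) M t ht0 (by
      intro i
      by_cases hi : i < j
      · have : j - i = j - (i + 1) + 1 := by omega
        rw [this, dist_comm]; exact hq _
      · have h1 : j - i = 0 := by omega
        have h2 : j - (i + 1) = 0 := by omega
        rw [h1, h2, dist_self]; exact hM) (by simp) j (by
      simp only [Nat.sub_self]
      have h1 := gp_le (q j) (q 0) (q (j + k))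
      unfold gp
      rw [dist_self]
      linarith)
    obtain ⟨b, -, hb1, hb2⟩ := walk h (q j) (q (j + k)) (fun i => q (j + i)) M t ht0
      (fun i => hq _) (by simp) k (by
      have h1 := gp_le (q j) (q (j + k)) (q 0)
      rw [gp_comm] at h1
      unfold gp
      rw [dist_self]
      linarith)
    have h1 : t ≤ gp (q j) (q (j - a)) (q (j + k)) := hyp0 h _ _ (q 0) _ ha1 le_rfl
    have h2 : t ≤ gp (q j) (q (j - a)) (q (j + b)) :=
      hyp0 h _ _ (q (j + k)) _ h1 (by rw [gp_comm]; exact hb1)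
    have h3 : dist (q (j - a)) (q (j + b)) < 2 * M := by
      unfold gp at h2; linarith
    have h4 : a + b < L := by
      by_contra h5
      have h6 := hL (j - a) (a + b) (not_lt.1 h5)
      have h7 : j - a + (a + b) = j + b := by omega
      rw [h7] at h6
      linarith
    have h5 : dist (q (j + b)) (q j) ≤ b * M := by rw [dist_comm]; exact hstep j b
    have h6 : t ≤ dist (q (j + b)) (q j) := hb1.trans (gp_le _ _ _)
    have h7 : (b : ℝ) ≤ L := by exact_mod_cast (by omega : b ≤ L)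
    nlinarith
  obtain ⟨D, hD⟩ := hprop (2 * (L * M) + 1)
  refine ⟨D + 1, by omega, fun n => ?_⟩
  induction n with
  | zero => simp
  | succ n ih =>
    have h1 := hgp (n * (D + 1)) (D + 1)
    have h2 := hD (n * (D + 1)) (D + 1) (by omega)
    have h3 : (n + 1) * (D + 1) = n * (D + 1) + (D + 1) := by ring
    rw [h3]
    unfold gp at h1
    rw [dist_comm (q (n * (D + 1) + (D + 1))) (q (n * (D + 1)))] at h1
    push_cast
    linarith

end Pool.Agent.H.MP_efec2f_gt
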