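import Pool.Agent.H.MP_efec2f_gt.B

namespace Pool.Agent.H.MP_efec2f_gt

open Filter Topology Real
open scoped NNReal UpperHalfPlane MatrixGroups

section Model
variable {Z : Type} [NormedAddCommGroup Z]

noncomputable def LL (a b : Z × ℝ) : ℝ := log (max ‖a.1 - b.1‖ (max (exp a.2) (exp b.2)))

noncomputable def DD (a b : Z × ℝ) : ℝ := 2 * LL a b - a.2 - b.2

theorem mx_pos (a b : Z × ℝ) : 0 < max ‖a.1 - b.1‖ (max (exp a.2) (exp b.2)) :=
  lt_max_of_lt_right (lt_max_of_lt_left (exp_pos _))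

theorem LL_comm (a b : Z × ℝ) : LL a b = LL b a := by
  unfold LL; rw [norm_sub_rev, max_comm (exp a.2)]

theorem LL_le_iff (a b : Z × ℝ) (T : ℝ) :
    LL a b ≤ T ↔ ‖a.1 - b.1‖ ≤ exp T ∧ a.2 ≤ T ∧ b.2 ≤ T := by
  unfold LL
  rw [log_le_iff_le_exp (mx_pos a b), max_le_iff, max_le_iff, exp_le_exp, exp_le_exp]

theorem LL_norm (a b : Z × ℝ) : ‖a.1 - b.1‖ ≤ exp (LL a b) := ((LL_le_iff a b _).1 le_rfl).1
theorem LL_left (a b : Z × ℝ) : a.2 ≤ LL a b := ((LL_le_iff a b _).1 le_rfl).2.1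
theorem LL_right (a b : Z × ℝ) : b.2 ≤ LL a b := ((LL_le_iff a b _).1 le_rfl).2.2

theorem LL_ge (a b : Z × ℝ) (T : ℝ) (h : exp T ≤ ‖a.1 - b.1‖) : T ≤ LL a b :=
  exp_le_exp.1 (h.trans (LL_norm a b))

theorem LL_tri {k : ℝ} (hk0 : 0 ≤ k)
    (hk : ∀ x y z : Z, ‖x - z‖ ≤ exp k * max ‖x - y‖ ‖y - z‖) (a b c : Z × ℝ) :
    LL a c ≤ k + max (LL a b) (LL b c) := by
  rw [LL_le_iff]
  refine ⟨(hk _ b.1 _).trans ?_, ?_, ?_⟩
  · rw [exp_add]
    refine mul_le_mul_of_nonneg_left (max_le ?_ ?_) (exp_pos _).le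
    · exact (LL_norm a b).trans (exp_le_exp.2 (le_max_left _ _))
    · exact (LL_norm b c).trans (exp_le_exp.2 (le_max_right _ _))
  · linarith [LL_left a b, le_max_left (LL a b) (LL b c)]
  · linarith [LL_right b c, le_max_right (LL a b) (LL b c)]

theorem ptolemy {k a b c d e f : ℝ} (h1 : e ≤ k + max a d) (h2 : e ≤ k + max c b)
    (h3 : f ≤ k + max a c) (h4 : f ≤ k + max d b) :
    e + f ≤ 2 * k + (a + b) ∨ e + f ≤ 2 * k + (c + d) := by
  by_contra hc
  push Not at hc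
  obtain ⟨h5, h6⟩ := hc
  rcases le_total a d with p1 | p1 <;> rcases le_total c b with p2 | p2 <;>
    rcases le_total a c with p3 | p3 <;> rcases le_total d b with p4 | p4 <;>
    simp only [p1, p2, p3, p4, max_eq_left, max_eq_right] at h1 h2 h3 h4 <;> linarith

theorem hyp_model {X : Type} [PseudoMetricSpace X] {k C : ℝ} (hk0 : 0 ≤ k)
    (hk : ∀ x y z : Z, ‖x - z‖ ≤ exp k * max ‖x - y‖ ‖y - z‖) (φ : Z × ℝ → X)
    (hs : Function.Surjective φ) (hφ : ∀ a b, |dist (φ a) (φ b) - DD a b| ≤ C) :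
    Hyp X (2 * k + 3 * C) := by
  intro w x y z
  obtain ⟨w, rfl⟩ := hs w
  obtain ⟨x, rfl⟩ := hs x
  obtain ⟨y, rfl⟩ := hs y
  obtain ⟨z, rfl⟩ := hs z
  have h1 := LL_tri hk0 hk x y z
  have h2 := LL_tri hk0 hk x w z
  have h3 := LL_tri hk0 hk y x w
  have h4 := LL_tri hk0 hk y z w
  rw [LL_comm w z] at h2
  rw [LL_comm y x] at h3
  have e1 := abs_le.1 (hφ x w)
  have e2 := abs_le.1 (hφ y w)
  have e3 := abs_le.1 (hφ z w)
  have e4 := abs_le.1 (hφ x y)
  have e5 := abs_le.1 (hφ y z)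
  have e6 := abs_le.1 (hφ x z)
  unfold DD at e1 e2 e3 e4 e5 e6
  have m1 := min_le_left (gp (φ w) (φ x) (φ y)) (gp (φ w) (φ y) (φ z))
  have m2 := min_le_right (gp (φ w) (φ x) (φ y)) (gp (φ w) (φ y) (φ z))
  generalize min (gp (φ w) (φ x) (φ y)) (gp (φ w) (φ y) (φ z)) = μ at m1 m2
  unfold gp at m1 m2 ⊢
  rcases ptolemy h1 h2 h3 h4 with h | h <;>
    linarith [e1.1, e1.2, e2.1, e2.2, e3.1, e3.2, e4.1, e4.2, e5.1, e5.2, e6.1, e6.2]

theorem branch_model {X : Type} [PseudoMetricSpace X] {C : ℝ} (hC : 0 ≤ C) (φ : Z × ℝ → X)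
    (hs : Function.Surjective φ) (hφ : ∀ a b, |dist (φ a) (φ b) - DD a b| ≤ C)
    (v : ℤ → Z) (hv : ∀ n, ‖v n‖ = (2 : ℝ) ^ n) (z : X) (L : ℝ) (hL : 0 ≤ L) :
    ∃ g : ℕ → X, (∀ k, dist (g k) z ≤ L + (C + 4)) ∧
      ∀ k k' : ℕ, k ≠ k' → 2 * L - (C + 4) * (1 + k + k') ≤ dist (g k) (g k') := by
  obtain ⟨⟨x, s⟩, rfl⟩ := hs z
  obtain ⟨n, hn1, hn2⟩ := exists_mem_Ico_zpow (exp_pos s) (one_lt_two (α := ℝ))
  refine ⟨fun k => φ (x + v (n - k), s - L), fun k => ?_, ?_⟩
  · have h1 := (abs_le.1 (hφ (x + v (n - k), s - L) (x, s))).2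
    have h2 : LL (x + v (n - k), s - L) (x, s) ≤ s := by
      rw [LL_le_iff]
      refine ⟨?_, by simp [hL], le_rfl⟩
      simp only [add_sub_cancel_left, hv]
      exact (zpow_le_zpow_right₀ one_le_two (by omega)).trans hn1
    unfold DD at h1
    simp only at h1
    linarith
  · have key : ∀ k k' : ℕ, k < k' → 2 * L - (C + 4) * (1 + k + k') ≤
        dist (φ (x + v (n - k), s - L)) (φ (x + v (n - k'), s - L)) := by
      intro k k' hk
      have h1 := (abs_le.1 (hφ (x + v (n - k), s - L) (x + v (n - k'), s - L))).1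
      have h2 : s - (k + 2) ≤ LL (x + v (n - k), s - L) (x + v (n - k'), s - L) := by
        refine LL_ge _ _ _ ?_
        simp only [add_sub_add_left_eq_sub]
        have h3 := norm_sub_norm_le (v (n - k)) (v (n - k'))
        rw [hv, hv] at h3
        have h4 : (2 : ℝ) ^ (n - k' : ℤ) ≤ 2 ^ (n - k - 1 : ℤ) :=
          zpow_le_zpow_right₀ one_le_two (by omega)
        have h5 : (2 : ℝ) ^ (n - k : ℤ) = 2 * 2 ^ (n - k - 1 : ℤ) := by
          rw [zpow_sub_one₀ two_ne_zero]; field_simp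
        have h6 : (2 : ℝ) ^ (n + 1 : ℤ) = 2 ^ (n - k - 1 : ℤ) * 2 ^ (k + 2) := by
          rw [← zpow_natCast, ← zpow_add₀ two_ne_zero]; congr 1; push_cast; ring
        have h7 : (2 : ℝ) ^ (k + 2) ≤ exp (k + 2) := by
          have : exp (k + 2 : ℝ) = exp 1 ^ (k + 2) := by
            rw [← exp_nat_mul]; push_cast; ring_nf
          rw [this]
          exact pow_le_pow_left₀ zero_le_two (by linarith [add_one_le_exp (1 : ℝ)]) _
        have h8 : (0 : ℝ) < 2 ^ (n - k - 1 : ℤ) := by positivity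
        rw [exp_sub, div_le_iff₀ (exp_pos _)]
        have h9 : (2 : ℝ) ^ (n - k - 1 : ℤ) ≤ ‖v (n - k) - v (n - k')‖ := by linarith
        calc exp s ≤ 2 ^ (n - k - 1 : ℤ) * 2 ^ (k + 2) := by rw [← h6]; exact hn2.le
          _ ≤ _ := mul_le_mul h9 h7 (by positivity) (norm_nonneg _)
      unfold DD at h1
      simp only at h1
      have h3 : (0 : ℝ) ≤ k := Nat.cast_nonneg k
      have h4 : (0 : ℝ) ≤ k' := Nat.cast_nonneg k'
      nlinarith [mul_nonneg hC h3, mul_nonneg hC h4]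
    intro k k' hk
    rcases lt_or_gt_of_ne hk with h | h
    · exact key k k' h
    · rw [dist_comm, add_right_comm]; exact key k' k h

end Model

theorem card_le (X : Type) [MetricSpace X] [ProperSpace X] [Nonempty X] :
    Cardinal.mk X ≤ Cardinal.continuum := by
  let f : X → ℕ → ℝ := fun x n => dist x (TopologicalSpace.denseSeq X n)
  have hf : Function.Injective f := by
    intro x y hxy
    have h1 : (fun z => dist x z) = fun z => dist y z :=
      (TopologicalSpace.denseRange_denseSeq X).equalizer (by fun_prop) (by fun_prop) hxy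
    have h2 := congrFun h1 y
    simpa using h2
  refine (Cardinal.mk_le_of_injective hf).trans ?_
  rw [← Cardinal.power_def, Cardinal.mk_nat, Cardinal.mk_real, Cardinal.continuum_power_aleph0]

/-! ### the hyperbolic plane -/

noncomputable def φH (a : ℝ × ℝ) : ℍ := UpperHalfPlane.mk ⟨a.1, exp a.2⟩ (exp_pos a.2)

theorem φH_surj : Function.Surjective φH := fun z =>
  ⟨(z.re, log z.im), by
    apply UpperHalfPlane.ext
    apply Complex.ext
    · rfl
    · exact exp_log z.im_pos⟩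

theorem φH_dist (a b : ℝ × ℝ) : |dist (φH a) (φH b) - DD a b| ≤ 2 := by
  have h1 := UpperHalfPlane.cosh_dist' (φH a) (φH b)
  have e1 : (φH a).re = a.1 := rfl
  have e2 : (φH b).re = b.1 := rfl
  have e3 : (φH a).im = exp a.2 := rfl
  have e4 : (φH b).im = exp b.2 := rfl
  rw [e1, e2, e3, e4] at h1
  set d := dist (φH a) (φH b)
  have hd : 0 ≤ d := dist_nonneg
  set M := max ‖a.1 - b.1‖ (max (exp a.2) (exp b.2)) with hM
  have hM0 : 0 < M := mx_pos a b
  have hD : exp (DD a b) = M ^ 2 / (exp a.2 * exp b.2) := by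
    unfold DD LL
    rw [← hM, exp_sub, exp_sub, two_mul, exp_add, exp_log hM0]
    field_simp
  have ha := exp_pos a.2
  have hb := exp_pos b.2
  have m1 : ‖a.1 - b.1‖ ≤ M := le_max_left _ _
  have m2 : exp a.2 ≤ M := (le_max_left _ _).trans (le_max_right _ _)
  have m3 : exp b.2 ≤ M := (le_max_right _ _).trans (le_max_right _ _)
  have m4 : (a.1 - b.1) ^ 2 = ‖a.1 - b.1‖ ^ 2 := by rw [Real.norm_eq_abs, sq_abs]
  rw [m4] at h1
  have n0 := norm_nonneg (a.1 - b.1)
  have hup : ‖a.1 - b.1‖ ^ 2 + exp a.2 ^ 2 + exp b.2 ^ 2 ≤ 3 * M ^ 2 := by nlinarith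
  have hlo : M ^ 2 ≤ ‖a.1 - b.1‖ ^ 2 + exp a.2 ^ 2 + exp b.2 ^ 2 := by
    rcases max_choice ‖a.1 - b.1‖ (max (exp a.2) (exp b.2)) with h | h
    · rw [hM, h]; nlinarith
    · rcases max_choice (exp a.2) (exp b.2) with h' | h'
      · rw [hM, h, h']; nlinarith
      · rw [hM, h, h']; nlinarith
  have c1 : exp d ≤ 2 * cosh d := by rw [cosh_eq]; linarith [exp_pos (-d)]
  have c2 : cosh d ≤ exp d := by
    rw [cosh_eq]; linarith [exp_le_exp.2 (by linarith : -d ≤ d)]
  have c3 : (3 : ℝ) ≤ exp 2 := by linarith [add_one_le_exp (2 : ℝ)]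
  have hE := exp_pos (DD a b)
  have c4 : 2 * cosh d ≤ 3 * exp (DD a b) := by
    rw [h1, hD, ← mul_div_assoc, ← mul_div_assoc, div_le_div_iff₀ (by positivity) (by positivity)]
    nlinarith [mul_pos ha hb]
  have c5 : exp (DD a b) ≤ 2 * cosh d := by
    rw [h1, hD, ← mul_div_assoc, div_le_div_iff₀ (by positivity) (by positivity)]
    nlinarith [mul_pos ha hb]
  rw [abs_le]
  constructor
  · have : exp (DD a b) ≤ exp (d + 2) := by rw [exp_add]; nlinarith [exp_pos d]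
    linarith [exp_le_exp.1 this]
  · have : exp d ≤ exp (DD a b + 2) := by rw [exp_add]; nlinarith
    linarith [exp_le_exp.1 this]

theorem geo_vert (z w : ℍ) (h : z.re = w.re) : ∃ γ : ℝ → ℍ, γ 0 = z ∧ γ (dist z w) = w ∧
    Isometry γ := by
  have hd := UpperHalfPlane.dist_of_re_eq h
  have hi := UpperHalfPlane.isometry_vertical_line z.re
  have hz : ∀ u : ℍ, u.re = z.re → ∀ y, y = log u.im →
      UpperHalfPlane.mk ⟨z.re, exp y⟩ (exp_pos y) = u := by
    rintro u hu y rfl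
    apply UpperHalfPlane.ext
    apply Complex.ext
    · exact hu.symm
    · exact exp_log u.im_pos
  rcases le_total (log z.im) (log w.im) with h1 | h1
  · refine ⟨fun t => UpperHalfPlane.mk ⟨z.re, exp (log z.im + t)⟩ (exp_pos _),
      hz z rfl _ (by simp), hz w h.symm _ ?_, hi.comp (isometry_add_left _)⟩
    rw [hd, Real.dist_eq, abs_sub_comm, abs_of_nonneg (by linarith)]; ring
  · refine ⟨fun t => UpperHalfPlane.mk ⟨z.re, exp (log z.im - t)⟩ (exp_pos _),
      hz z rfl _ (by simp), hz w h.symm _ ?_, hi.comp (Isometry.of_dist_eq fun s t => ?_)⟩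
    · rw [hd, Real.dist_eq, abs_of_nonneg (by linarith)]; ring
    · exact dist_sub_left _ _ _

theorem exists_vert (z w : ℍ) : ∃ g : SL(2, ℝ), (g • z).re = (g • w).re := by
  by_cases h : z.re = w.re
  · exact ⟨1, by simpa using h⟩
  have hδ : w.re - z.re ≠ 0 := sub_ne_zero.2 (Ne.symm h)
  obtain ⟨c, hc⟩ : ∃ c : ℝ, (z.re - c) * ((w.re - c) ^ 2 + w.im ^ 2) =
      (w.re - c) * ((z.re - c) ^ 2 + z.im ^ 2) := by
    set δ := w.re - z.re with hδd
    have hdisc : 0 ≤ discrim δ (z.im ^ 2 - w.im ^ 2 - δ ^ 2) (-δ * z.im ^ 2) := by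
      unfold discrim
      nlinarith [sq_nonneg (z.im ^ 2 - w.im ^ 2 - δ ^ 2), sq_nonneg (δ * z.im)]
    obtain ⟨u, hu⟩ := exists_quadratic_eq_zero hδ ⟨√_, (Real.mul_self_sqrt hdisc).symm⟩
    refine ⟨z.re + u, ?_⟩
    have : w.re = z.re + δ := by rw [hδd]; ring
    rw [this]
    linear_combination hu
  obtain ⟨g, g1, g2, g3, g4⟩ : ∃ g : SL(2, ℝ), g 0 0 = 0 ∧ g 0 1 = -1 ∧ g 1 0 = 1 ∧ g 1 1 = -c :=
    ⟨⟨!![0, -1; 1, -c], by simp [Matrix.det_fin_two]⟩, rfl, rfl, rfl, rfl⟩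
  refine ⟨g, ?_⟩
  have key : ∀ u : ℍ, (g • u).re = -(u.re - c) / ((u.re - c) ^ 2 + u.im ^ 2) := by
    intro u
    rw [← UpperHalfPlane.coe_re, UpperHalfPlane.coe_specialLinearGroup_apply, g1, g2, g3, g4]
    simp [Complex.div_re, Complex.normSq_apply]
    ring
  rw [key, key]
  have h1 : 0 < (z.re - c) ^ 2 + z.im ^ 2 := by have := z.im_pos; positivity
  have h2 : 0 < (w.re - c) ^ 2 + w.im ^ 2 := by have := w.im_pos; positivity
  rw [div_eq_div_iff h1.ne' h2.ne']
  linear_combination -hc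

theorem geo_H : Geodesic ℍ := by
  intro z w
  obtain ⟨g, hg⟩ := exists_vert z w
  obtain ⟨γ, h0, h1, h2⟩ := geo_vert _ _ hg
  rw [dist_smul] at h1
  refine ⟨fun t => g⁻¹ • γ t, by simp [h0], by simp [h1], fun s _ t _ => ?_⟩
  rw [dist_smul, h2.dist_eq, Real.dist_eq]

theorem nice_H : Nice ℍ where
  geo := geo_H
  hyp := ⟨_, hyp_model (k := 1) zero_le_one (fun x y z => by
    have h1 := norm_sub_le_norm_sub_add_norm_sub x y z
    have h2 := le_max_left ‖x - y‖ ‖y - z‖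
    have h3 := le_max_right ‖x - y‖ ‖y - z‖
    have h4 : (2 : ℝ) ≤ exp 1 := by linarith [add_one_le_exp (1 : ℝ)]
    have h5 := (norm_nonneg _).trans h2
    nlinarith) φH φH_surj φH_dist⟩
  branch := ⟨2 + 4, by norm_num, branch_model zero_le_two φH φH_surj φH_dist
    (fun n => (2 : ℝ) ^ n) (fun n => by rw [Real.norm_eq_abs, abs_of_pos (by positivity)])⟩
  card := card_le _

/-! ### the tree -/

def Y0 : Type := ℚ_[2] × ℝ

theorem ultra (x y z : ℚ_[2]) : ‖x - z‖ ≤ exp 0 * max ‖x - y‖ ‖y - z‖ := by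
  rw [exp_zero, one_mul, ← dist_eq_norm, ← dist_eq_norm, ← dist_eq_norm]
  exact IsUltrametricDist.dist_triangle_max x y z

theorem DD_self {Z : Type} [NormedAddCommGroup Z] (x : Z) (u v : ℝ) :
    DD (x, u) (x, v) = |u - v| := by
  have h1 : LL (x, u) (x, v) = max u v := by
    refine le_antisymm ((LL_le_iff _ _ _).2 ⟨by simp [(exp_pos _).le], le_max_left _ _,
      le_max_right _ _⟩) (max_le (LL_left (x, u) (x, v)) (LL_right (x, u) (x, v)))
  unfold DD
  rw [h1]
  rcases le_total u v with h | h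
  · rw [max_eq_right h, abs_sub_comm, abs_of_nonneg (by linarith)]; ring
  · rw [max_eq_left h, abs_of_nonneg (by linarith)]; ring

noncomputable instance : PseudoMetricSpace Y0 where
  dist a b := DD (Z := ℚ_[2]) a b
  dist_self a := by
    obtain ⟨x, s⟩ := a
    simpa using DD_self x s s
  dist_comm a b := by unfold DD; rw [LL_comm]; ring
  dist_triangle a b c := by
    have h1 := LL_tri (Z := ℚ_[2]) le_rfl ultra a b c
    have h2 := LL_right (Z := ℚ_[2]) a b
    have h3 := LL_left (Z := ℚ_[2]) b c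
    unfold DD
    rcases max_choice (LL (Z := ℚ_[2]) a b) (LL (Z := ℚ_[2]) b c) with h | h <;>
      rw [h] at h1 <;> linarith

abbrev Tr : Type := SeparationQuotient Y0

noncomputable def φT (a : ℚ_[2] × ℝ) : Tr := SeparationQuotient.mk (X := Y0) a

theorem φT_surj : Function.Surjective φT := SeparationQuotient.surjective_mk (X := Y0)

theorem φT_dist (a b : ℚ_[2] × ℝ) : dist (φT a) (φT b) = DD a b := rfl

theorem φT_cont : Continuous φT := by
  refine continuous_iff_continuousAt.2 fun b => tendsto_iff_dist_tendsto_zero.2 ?_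
  have h1 : Continuous fun a : ℚ_[2] × ℝ => DD a b := by
    unfold DD LL
    refine ((continuous_const.mul (Continuous.log (by fun_prop) fun a => (mx_pos a b).ne')).sub
      continuous_snd).sub continuous_const
  have h2 := h1.tendsto b
  rw [← φT_dist b b, dist_self] at h2
  exact h2

instance : ProperSpace Tr := by
  refine ⟨fun p R => ?_⟩
  obtain ⟨⟨x, s⟩, rfl⟩ := φT_surj p
  have hK : IsCompact (Metric.closedBall x (exp (s + R)) ×ˢ Set.Icc (s - R) (s + R)) :=
    (isCompact_closedBall _ _).prod isCompact_Icc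
  refine (hK.image φT_cont).of_isClosed_subset Metric.isClosed_closedBall fun q hq => ?_
  obtain ⟨⟨y, u⟩, rfl⟩ := φT_surj q
  rw [Metric.mem_closedBall, φT_dist] at hq
  have h1 := LL_left (y, u) (x, s)
  have h2 := LL_right (y, u) (x, s)
  have h3 := LL_norm (y, u) (x, s)
  unfold DD at hq
  simp only at h1 h2 h3 hq
  refine ⟨(y, u), ⟨?_, by simp only; linarith, by simp only; linarith⟩, rfl⟩
  rw [Metric.mem_closedBall, dist_eq_norm]
  exact h3.trans (exp_le_exp.2 (by linarith))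

theorem geo_T : Geodesic Tr := by
  intro p q
  obtain ⟨⟨x, s⟩, rfl⟩ := φT_surj p
  obtain ⟨⟨y, u⟩, rfl⟩ := φT_surj q
  set T := LL (x, s) (y, u) with hT
  have h1 : s ≤ T := LL_left (x, s) (y, u)
  have h2 : u ≤ T := LL_right (x, s) (y, u)
  have h3 : ‖x - y‖ ≤ exp T := LL_norm (x, s) (y, u)
  have hd : dist (φT (x, s)) (φT (y, u)) = 2 * T - s - u := rfl
  have hxy : ∀ a b, a ≤ T → b ≤ T → dist (φT (x, a)) (φT (y, b)) ≤ 2 * T - a - b := by
    intro a b ha hb
    have := (LL_le_iff (x, a) (y, b) T).2 ⟨h3, ha, hb⟩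
    rw [φT_dist]; unfold DD; simp only; linarith
  let γ : ℝ → Tr := fun t => if t ≤ T - s then φT (x, s + t) else φT (y, 2 * T - s - t)
  have hL : ∀ a b, a ≤ b → dist (γ a) (γ b) ≤ b - a := by
    intro a b hab
    simp only [γ]
    split_ifs with c1 c2 c2
    · rw [φT_dist, DD_self, abs_sub_comm, abs_of_nonneg (by linarith)]; linarith
    · have := hxy (s + a) (2 * T - s - b) (by linarith) (by linarith)
      linarith
    · linarith
    · rw [φT_dist, DD_self, abs_of_nonneg (by linarith)]; linarith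
  have g0 : γ 0 = φT (x, s) := by
    simp only [γ]; rw [if_pos (by linarith), add_zero]
  have g1 : γ (2 * T - s - u) = φT (y, u) := by
    simp only [γ]
    split_ifs with c1
    · refine dist_le_zero.1 ?_
      have := hxy (s + (2 * T - s - u)) u (by linarith) h2
      linarith
    · congr 2; ring
  have hE : ∀ a b, 0 ≤ a → a ≤ b → b ≤ 2 * T - s - u → dist (γ a) (γ b) = b - a := by
    intro a b h4 h5 h6
    refine le_antisymm (hL a b h5) ?_
    have h7 := dist_triangle4 (γ 0) (γ a) (γ b) (γ (2 * T - s - u))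
    have h8 := hL 0 a h4
    have h9 := hL b _ h6
    rw [g0, g1, hd] at h7
    rw [g0] at h8
    rw [g1] at h9
    linarith
  rw [hd]
  refine ⟨γ, g0, g1, fun a ha b hb => ?_⟩
  rcases le_total a b with h | h
  · rw [hE a b ha.1 h hb.2, abs_sub_comm, abs_of_nonneg (by linarith)]
  · rw [dist_comm, hE b a hb.1 h ha.2, abs_of_nonneg (by linarith)]

theorem hyp_T : Hyp Tr 0 := by
  have := hyp_model (k := 0) (C := 0) le_rfl ultra φT φT_surj (fun a b => by simp [φT_dist])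
  simpa using this

theorem nice_T : Nice Tr where
  geo := geo_T
  hyp := ⟨_, hyp_T⟩
  branch := ⟨0 + 4, by norm_num, branch_model le_rfl φT φT_surj (fun a b => by simp [φT_dist])
    (fun n => ((2 : ℕ) : ℚ_[2]) ^ (-n)) (fun n => by rw [Padic.norm_p_zpow]; simp)⟩
  card := haveI : Nonempty Tr := ⟨φT (0, 0)⟩; card_le _

/-! ### spectra -/

noncomputable def lg (n : ℕ) : ℝ := log (n + 1)

theorem rate_lg : Rate lg := by
  refine ⟨fun n hn => log_pos ?_, fun m n _ h => log_le_log (by positivity) ?_, fun C => ?_,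
    fun M hM => ⟨1, M, one_pos, by exact_mod_cast hM, 0, fun N _ => ⟨?_, ?_⟩⟩⟩
  · have : (1 : ℝ) ≤ n := by exact_mod_cast hn
    linarith
  · have : (m : ℝ) ≤ n := by exact_mod_cast h
    linarith
  · obtain ⟨n, hn⟩ := exists_nat_gt (exp C)
    refine ⟨n + 1, by omega, ?_⟩
    unfold lg
    rw [lt_log_iff_exp_lt (by positivity)]
    push_cast; linarith
  · rw [one_mul]
    refine log_le_log (by positivity) ?_
    have : (N : ℝ) ≤ (M * N : ℕ) := by exact_mod_cast Nat.le_mul_of_pos_left N hM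
    linarith
  · unfold lg
    rw [← log_pow]
    refine log_le_log (by positivity) ?_
    have := one_add_mul_le_pow (a := (N : ℝ)) (by linarith [Nat.cast_nonneg (α := ℝ) N]) M
    push_cast
    rw [add_comm (N : ℝ) 1]
    linarith

theorem real_H (I : Set ℤ) : Realizable ℍ I lg := by
  refine ⟨fun n => φH ((n : ℤ), 0), 1 / 2, 3, 9, by norm_num, by norm_num, by norm_num,
    fun m n h => ?_⟩
  set N := ((n : ℤ) - m).natAbs with hN
  have hN9 : (9 : ℝ) ≤ N := by exact_mod_cast h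
  have h1 : ‖((n : ℤ) : ℝ) - ((m : ℤ) : ℝ)‖ = N := by
    rw [hN, Real.norm_eq_abs, Nat.cast_natAbs]; push_cast; rfl
  have h2 : DD (((n : ℤ) : ℝ), (0 : ℝ)) (((m : ℤ) : ℝ), (0 : ℝ)) = 2 * log N := by
    unfold DD LL
    simp only [h1, exp_zero, max_self]
    rw [max_eq_left (by linarith)]; ring
  have h3 := abs_le.1 (φH_dist (((n : ℤ) : ℝ), (0 : ℝ)) (((m : ℤ) : ℝ), (0 : ℝ)))
  rw [h2] at h3
  have h4 : 2 ≤ log N := by
    rw [le_log_iff_exp_le (by linarith)]
    have : exp 2 = exp 1 * exp 1 := by rw [← exp_add]; norm_num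
    have h5 := exp_one_lt_three
    have h6 := exp_pos 1
    nlinarith
  have h5 : log N ≤ lg N := log_le_log (by linarith) (by linarith)
  have h6 : lg N ≤ 2 * log N := by
    have : 2 * log N = log (N * N) := by rw [log_mul (by linarith) (by linarith)]; ring
    rw [this]
    exact log_le_log (by positivity) (by nlinarith)
  constructor <;> linarith [h3.1, h3.2]

theorem not_real_T (I : Set ℤ) (hI : ∀ n : ℤ, 1 ≤ n → n ∈ I) (g : ℕ → ℝ) (hg : Rate g)
    (hs : Same lg g) : ¬ Realizable Tr I g := by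
  rintro ⟨p, A, B, N0, hA, hB, hN0, hp⟩
  let q : ℕ → Tr := fun k => p ⟨1 + (k * N0 : ℕ), hI _ (by omega)⟩
  have hq : ∀ i j : ℕ, 1 ≤ j → A * g (j * N0) ≤ dist (q i) (q (i + j)) ∧
      dist (q i) (q (i + j)) ≤ B * g (j * N0) := by
    intro i j hj
    have h1 : ((1 + ((i + j) * N0 : ℕ) : ℤ) - (1 + (i * N0 : ℕ))).natAbs = j * N0 := by
      have : ((1 + ((i + j) * N0 : ℕ) : ℤ) - (1 + (i * N0 : ℕ))) = (j * N0 : ℕ) := by
        push_cast; ring
      rw [this, Int.natAbs_natCast]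
    have h2 := hp ⟨1 + (i * N0 : ℕ), hI _ (by omega)⟩ ⟨1 + ((i + j) * N0 : ℕ), hI _ (by omega)⟩
      (by simp only; rw [h1]; exact Nat.le_mul_of_pos_left _ hj)
    simp only at h2
    rw [h1, dist_comm] at h2
    exact h2
  obtain ⟨D, hD1, hD⟩ := quasigeod hyp_T q (B * g (1 * N0)) (fun i => (hq i 1 le_rfl).2) (by
    intro R
    obtain ⟨n, hn1, hn⟩ := hg.2.2.1 (R / A)
    refine ⟨n, fun i j hj => le_trans ?_ (hq i j (by omega)).1⟩
    have h1 := hg.2.1 n (j * N0) hn1 (hj.trans (Nat.le_mul_of_pos_right _ hN0))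
    rw [div_lt_iff₀ hA] at hn
    nlinarith)
  obtain ⟨c, C, hc, -, N1, hN1⟩ := hs
  have h1 : ∀ n : ℕ, N1 + 1 ≤ n → c * n ≤ B * (D * N0 : ℕ) * (2 * √(n : ℝ)) := by
    intro n hn
    have hn1 : 1 ≤ n * D := Nat.mul_pos (by omega) hD1
    have h2 := (hq 0 (n * D) hn1).2
    rw [zero_add] at h2
    have h3 := (hN1 (n * D * N0) (by
      calc N1 ≤ n := by omega
        _ ≤ n * D := Nat.le_mul_of_pos_right _ hD1
        _ ≤ _ := Nat.le_mul_of_pos_right _ hN0)).1
    have h4 : lg (n * D * N0) ≤ (D * N0 : ℕ) * lg n := by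
      unfold lg
      rw [← log_pow]
      refine log_le_log (by positivity) ?_
      have := one_add_mul_le_pow (a := (n : ℝ)) (by linarith [Nat.cast_nonneg (α := ℝ) n])
        (D * N0)
      push_cast at this ⊢
      rw [add_comm (n : ℝ) 1]
      linarith
    have h5 : lg n ≤ 2 * √(n : ℝ) := by
      unfold lg
      have h6 : (n : ℝ) + 1 ≤ (√(n : ℝ) + 1) ^ 2 := by
        nlinarith [Real.sq_sqrt (Nat.cast_nonneg (α := ℝ) n), Real.sqrt_nonneg (n : ℝ)]
      have h7 := log_le_log (by positivity) h6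
      rw [log_pow] at h7
      have h8 := log_le_sub_one_of_pos (x := √(n : ℝ) + 1) (by positivity)
      push_cast at h7
      linarith
    have h6 := hD n
    have h7 : (0 : ℝ) ≤ (D * N0 : ℕ) := Nat.cast_nonneg _
    have h8 : c * g (n * D * N0) ≤ (D * N0 : ℕ) * (2 * √(n : ℝ)) :=
      h3.trans (h4.trans (mul_le_mul_of_nonneg_left h5 h7))
    calc c * n ≤ c * (B * g (n * D * N0)) := mul_le_mul_of_nonneg_left (h6.trans h2) hc.le
      _ = B * (c * g (n * D * N0)) := by ring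
      _ ≤ B * ((D * N0 : ℕ) * (2 * √(n : ℝ))) := mul_le_mul_of_nonneg_left h8 hB.le
      _ = _ := by ring
  set K : ℝ := B * (D * N0 : ℕ) * 2 / c with hK
  obtain ⟨n, hn⟩ := exists_nat_gt (max (K ^ 2) (N1 + 1 : ℕ))
  have hn1 : N1 + 1 ≤ n := by exact_mod_cast ((le_max_right _ _).trans hn.le)
  have hn2 : K ^ 2 < n := (le_max_left _ _).trans_lt hn
  have h2 := h1 n hn1
  have hs0 : 0 < √(n : ℝ) := Real.sqrt_pos.2 (by exact_mod_cast (by omega : 0 < n))
  have hss : √(n : ℝ) * √(n : ℝ) = n := Real.mul_self_sqrt (Nat.cast_nonneg _)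
  have h3 : K < √(n : ℝ) := Real.lt_sqrt_of_sq_lt hn2
  rw [hK, div_lt_iff₀ hc] at h3
  nlinarith

theorem spec_ne (I : Set ℤ) (hI : ∀ n : ℤ, 1 ≤ n → n ∈ I) : Spec ℍ I ≠ Spec Tr I := by
  intro h
  have h1 : {g | Rate g ∧ Same lg g} ∈ Spec ℍ I := ⟨lg, rate_lg, real_H I, rfl⟩
  rw [h] at h1
  obtain ⟨g, hg, hr, he⟩ := h1
  have h2 : g ∈ {f | Rate f ∧ Same g f} := ⟨hg, 1, 1, one_pos, one_pos, 0, fun N _ => by simp⟩
  rw [← he] at h2
  exact not_real_T I hI g hg h2.2 hr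

end Pool.Agent.H.MP_efec2f_gt
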